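-- MP_c6464f_gt, Q1: the affirmative answer, with the definitions of the problem file written out.
-- If L is a regular (in particular: Tychonoff) Lindelof scattered space and K is a compact subspace of
-- C_p(L), then C_p(K) is hereditarily weakly theta-refinable.
-- The proof is the one of the frozen statement S13913, in an arbitrary universe
-- (Pool/Agent/Lib_helper63/CP is a universe polymorphic copy of Pool/Agent/Lib_helper92).
import Pool.Agent.Lib_helper63.CP.Theta

set_option autoImplicit false

namespace Pool.Agent.Results.MP_c6464f_gt.HereditaryRefinability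

universe u

open Pool.Agent.Lib_helper63

/-- `C_p(Y)`: the continuous real-valued functions on `Y`, with the subspace topology inherited from
the product space `ℝ^Y` (this is the topology that Mathlib puts on a subtype of `Y → ℝ`). -/
abbrev Cp (Y : Type u) [TopologicalSpace Y] : Type u := {f : Y → ℝ // Continuous f}

/-- A space is scattered if every nonempty subspace has an isolated point. -/
def Scattered (Y : Type u) [TopologicalSpace Y] : Prop :=
  ∀ S : Set Y, S.Nonempty → ∃ x : S, IsOpen ({x} : Set S)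

/-- `ord(x, V)`: the number of members of the family `V` that contain `x`. -/
noncomputable def ord {Z : Type u} (x : Z) (V : Set (Set Z)) : ℕ∞ := {G : Set Z | G ∈ V ∧ x ∈ G}.encard

/-- A space `Z` is weakly `θ`-refinable if every open cover of `Z` has an open refinement
`V = ⋃ₙ Vₙ` which covers `Z` and such that for every `x ∈ Z` there is `n` with `0 < ord(x, Vₙ) < ω`. -/
def WeaklyThetaRefinable (Z : Type u) [TopologicalSpace Z] : Prop :=
  ∀ U : Set (Set Z), (∀ G ∈ U, IsOpen G) → ⋃₀ U = Set.univ →
    ∃ V : ℕ → Set (Set Z),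
      (∀ G ∈ ⋃ n, V n, IsOpen G) ∧
      (∀ G ∈ ⋃ n, V n, ∃ H ∈ U, G ⊆ H) ∧
      ⋃₀ (⋃ n, V n) = Set.univ ∧
      ∀ x : Z, ∃ n, 0 < ord x (V n) ∧ ord x (V n) < ⊤

/-- A space is hereditarily weakly `θ`-refinable if every subspace is weakly `θ`-refinable. -/
def HereditarilyWeaklyThetaRefinable (Z : Type u) [TopologicalSpace Z] : Prop :=
  ∀ Y : Set Z, WeaklyThetaRefinable Y

/-- Let `L` be a Lindelöf scattered space (regular, in particular any Tychonoff one), and let `K` be a
compact subspace of `C_p(L)`. Then `C_p(K)` is hereditarily weakly `θ`-refinable. -/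
theorem result (L : Type u) [TopologicalSpace L] [RegularSpace L] [LindelofSpace L]
    (hL : Scattered L) (K : Set (Cp L)) (hK : IsCompact K) :
    HereditarilyWeaklyThetaRefinable (Cp K) := by
  have hscat : ∀ S : Set L, S.Nonempty → ∃ x ∈ S, ∃ U : Set L, IsOpen U ∧ U ∩ S = {x} := by
    intro S hS
    obtain ⟨x, hx⟩ := hL S hS
    obtain ⟨U, hU, hUx⟩ := isOpen_induced_iff.mp hx
    refine ⟨x.1, x.2, U, hU, ?_⟩
    apply Set.Subset.antisymm
    · rintro y ⟨hy, hyS⟩
      have h1 : (⟨y, hyS⟩ : S) ∈ ({x} : Set S) := by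
        rw [← hUx]; exact hy
      exact congrArg Subtype.val (Set.mem_singleton_iff.mp h1)
    · intro y hy
      rw [Set.mem_singleton_iff] at hy
      subst hy
      have h1 : x ∈ (Subtype.val ⁻¹' U : Set S) := by
        rw [hUx]; exact Set.mem_singleton x
      exact ⟨h1, x.2⟩
  intro Y U hU hcov
  have hKc : CompactSpace K := isCompact_iff_compactSpace.mp hK
  have hsld : CpK.SLD (Set.univ : Set C(K, ℝ)) := by
    rcases isEmpty_or_nonempty L with hL | hL
    · have hsub : Subsingleton K := ⟨fun a b => Subtype.ext (Subtype.ext (Subsingleton.elim _ _))⟩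
      apply CpK.SLD_of_separable
      have : SecondCountableTopology K := inferInstance
      exact TopologicalSpace.isSeparable_univ_iff.mpr inferInstance
    · obtain ⟨S, -⟩ := CpK.exists_sys (Q := K) hscat (fun k x => k.1.1 x)
        (continuous_subtype_val.comp continuous_subtype_val)
        (fun a b h => Subtype.ext (Subtype.ext h)) (fun q => q.1.2)
      exact S.sld_univ
  obtain ⟨V, hV1, hV2⟩ := CpK.refine_of_SLD hsld Y U hU hcov
  refine ⟨V, ?_, ?_, ?_, ?_⟩
  · intro G hG
    obtain ⟨n, hn⟩ := Set.mem_iUnion.mp hG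
    exact (hV1 n G hn).1
  · intro G hG
    obtain ⟨n, hn⟩ := Set.mem_iUnion.mp hG
    exact (hV1 n G hn).2
  · apply Set.eq_univ_of_forall
    intro y
    obtain ⟨n, ⟨G, hG, hyG⟩, -⟩ := hV2 y
    exact ⟨G, Set.mem_iUnion.mpr ⟨n, hG⟩, hyG⟩
  · intro y
    obtain ⟨n, ⟨G, hG, hyG⟩, hfin⟩ := hV2 y
    refine ⟨n, ?_, ?_⟩
    · exact Set.encard_pos.mpr ⟨G, hG, hyG⟩
    · exact Set.encard_lt_top_iff.mpr hfin

end Pool.Agent.Results.MP_c6464f_gt.HereditaryRefinability
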